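import Pool.Agent.Helper61.PH.HLower

/-!
# Inscribed pentagons of maximal area: algebra (MP_8bf717_co)

`tr p q r` is twice the signed area of the triangle `p q r`, `sh p0 p1 p2 p3 p4` twice the signed
area of a closed pentagon. If a closed pentagon has maximal area among all closed pentagons with
the same vertices and satisfies strict support inequalities at its vertices, then all its
triangles are positively oriented.
-/

set_option autoImplicit false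

namespace Pool.Agent.Helper39.P5

open Pool.Agent.Helper61.PH

/-- twice the signed area of a triangle -/
def tr (p q r : ℝ × ℝ) : ℝ := cr (q - p) (r - p)

/-- twice the signed area of the closed pentagon `p0 p1 p2 p3 p4` -/
def sh (p0 p1 p2 p3 p4 : ℝ × ℝ) : ℝ :=
  cr p0 p1 + cr p1 p2 + cr p2 p3 + cr p3 p4 + cr p4 p0

theorem sh_fan (p0 p1 p2 p3 p4 : ℝ × ℝ) :
    sh p0 p1 p2 p3 p4 = tr p0 p1 p2 + tr p0 p2 p3 + tr p0 p3 p4 := by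
  unfold sh tr cr
  simp only [Prod.fst_sub, Prod.snd_sub]
  ring

theorem sh_rot (p0 p1 p2 p3 p4 : ℝ × ℝ) : sh p1 p2 p3 p4 p0 = sh p0 p1 p2 p3 p4 := by
  unfold sh; ring

theorem tr_rot (p q r : ℝ × ℝ) : tr q r p = tr p q r := by
  unfold tr cr
  simp only [Prod.fst_sub, Prod.snd_sub]
  ring

theorem tr_swap (p q r : ℝ × ℝ) : tr q p r = -tr p q r := by
  unfold tr cr
  simp only [Prod.fst_sub, Prod.snd_sub]
  ring

theorem tr_self_left (p q : ℝ × ℝ) : tr p p q = 0 := by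
  unfold tr cr
  simp only [Prod.fst_sub, Prod.snd_sub]
  ring

theorem tr_self_right (p q : ℝ × ℝ) : tr p q q = 0 := by
  unfold tr cr
  simp only [Prod.fst_sub, Prod.snd_sub]
  ring

theorem tr_self_out (p q : ℝ × ℝ) : tr p q p = 0 := by
  unfold tr cr
  simp only [Prod.fst_sub, Prod.snd_sub]
  ring

/-- replacing a vertex -/
theorem sh_repl (p0 p1 p2 p3 p4 z : ℝ × ℝ) :
    sh p0 z p2 p3 p4 = sh p0 p1 p2 p3 p4 - (tr p0 p1 z + tr p1 p2 z) := by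
  unfold sh tr cr
  simp only [Prod.fst_sub, Prod.snd_sub]
  ring

/-- The identity behind the propagation of signs. -/
theorem sign_id (p0 p1 p2 p3 p4 : ℝ × ℝ) :
    (tr p4 p0 p2 + tr p0 p1 p2) * tr p3 p0 p1 =
      tr p4 p0 p1 * (tr p3 p0 p1 + tr p1 p2 p3) + tr p0 p1 p2 * tr p1 p3 p4 := by
  obtain ⟨x0, y0⟩ := p0
  obtain ⟨x1, y1⟩ := p1
  obtain ⟨x2, y2⟩ := p2
  obtain ⟨x3, y3⟩ := p3
  obtain ⟨x4, y4⟩ := p4
  unfold tr cr
  simp only [Prod.fst_sub, Prod.snd_sub]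
  ring

/-- `T1 ≥ 0` implies `T3 > 0`. -/
theorem sign_step {p0 p1 p2 p3 p4 : ℝ × ℝ} (h0 : 0 < tr p4 p0 p1) (h1 : 0 < tr p0 p1 p2)
    (s2 : 0 < tr p4 p0 p2 + tr p0 p1 p2) (s3 : 0 < tr p3 p0 p1 + tr p1 p2 p3)
    (hT : 0 ≤ tr p1 p3 p4) : 0 < tr p3 p0 p1 := by
  have e := sign_id p0 p1 p2 p3 p4
  have h : 0 < (tr p4 p0 p2 + tr p0 p1 p2) * tr p3 p0 p1 := by
    rw [e]
    have := mul_pos h0 s3
    have := mul_nonneg h1.le hT
    linarith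
  exact (mul_pos_iff_of_pos_left s2).1 h

/-- The five golden triangles. -/
theorem gauss_id (p0 p1 p2 p3 p4 : ℝ × ℝ) :
    sh p0 p3 p1 p4 p2 * (-(tr p0 p2 p3 + tr p1 p3 p4 + tr p2 p4 p0 + tr p3 p0 p1 + tr p4 p1 p2) -
      sh p0 p3 p1 p4 p2) =
      tr p0 p2 p3 * tr p3 p0 p1 + tr p3 p0 p1 * tr p1 p3 p4 + tr p1 p3 p4 * tr p4 p1 p2 +
        tr p4 p1 p2 * tr p2 p4 p0 + tr p2 p4 p0 * tr p0 p2 p3 := by
  obtain ⟨x0, y0⟩ := p0
  obtain ⟨x1, y1⟩ := p1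
  obtain ⟨x2, y2⟩ := p2
  obtain ⟨x3, y3⟩ := p3
  obtain ⟨x4, y4⟩ := p4
  unfold sh tr cr
  simp only [Prod.fst_sub, Prod.snd_sub]
  ring

theorem sum_id (p0 p1 p2 p3 p4 : ℝ × ℝ) :
    sh p0 p1 p2 p3 p4 = 2 * sh p0 p3 p1 p4 p2 +
      (tr p0 p2 p3 + tr p1 p3 p4 + tr p2 p4 p0 + tr p3 p0 p1 + tr p4 p1 p2) := by
  unfold sh tr cr
  simp only [Prod.fst_sub, Prod.snd_sub]
  ring

/-- The star is never maximal. -/
theorem no_star {p0 p1 p2 p3 p4 : ℝ × ℝ} (hF : 0 < sh p0 p1 p2 p3 p4)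
    (hle : sh p0 p3 p1 p4 p2 ≤ sh p0 p1 p2 p3 p4)
    (h0 : tr p0 p2 p3 < 0) (h1 : tr p1 p3 p4 < 0) (h2 : tr p2 p4 p0 < 0) (h3 : tr p3 p0 p1 < 0)
    (h4 : tr p4 p1 p2 < 0) : False := by
  have e1 := gauss_id p0 p1 p2 p3 p4
  have e2 := sum_id p0 p1 p2 p3 p4
  have m1 := mul_pos_of_neg_of_neg h0 h3
  have m2 := mul_pos_of_neg_of_neg h3 h1
  have m3 := mul_pos_of_neg_of_neg h1 h4
  have m4 := mul_pos_of_neg_of_neg h4 h2
  have m5 := mul_pos_of_neg_of_neg h2 h0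
  have hP : 0 < sh p0 p3 p1 p4 p2 := by linarith
  have hprod : 0 < sh p0 p3 p1 p4 p2 *
      (-(tr p0 p2 p3 + tr p1 p3 p4 + tr p2 p4 p0 + tr p3 p0 p1 + tr p4 p1 p2) -
        sh p0 p3 p1 p4 p2) := by
    rw [e1]; linarith
  have := (mul_pos_iff_of_pos_left hP).1 hprod
  linarith

/-- positively oriented pentagons: all ten triangles are positively oriented -/
structure Cvx (p0 p1 p2 p3 p4 : ℝ × ℝ) : Prop where
  a0 : 0 < tr p4 p0 p1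
  a1 : 0 < tr p0 p1 p2
  a2 : 0 < tr p1 p2 p3
  a3 : 0 < tr p2 p3 p4
  a4 : 0 < tr p3 p4 p0
  t0 : 0 < tr p0 p2 p3
  t1 : 0 < tr p1 p3 p4
  t2 : 0 < tr p2 p4 p0
  t3 : 0 < tr p3 p0 p1
  t4 : 0 < tr p4 p1 p2

theorem Cvx.rot {p0 p1 p2 p3 p4 : ℝ × ℝ} (h : Cvx p0 p1 p2 p3 p4) : Cvx p1 p2 p3 p4 p0 :=
  ⟨h.a1, h.a2, h.a3, h.a4, h.a0, h.t1, h.t2, h.t3, h.t4, h.t0⟩

/-- The criterion. -/
theorem cvx_of {p0 p1 p2 p3 p4 : ℝ × ℝ} (hF : 0 < sh p0 p1 p2 p3 p4)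
    (hle : sh p0 p3 p1 p4 p2 ≤ sh p0 p1 p2 p3 p4)
    (a0 : 0 < tr p4 p0 p1) (a1 : 0 < tr p0 p1 p2) (a2 : 0 < tr p1 p2 p3)
    (a3 : 0 < tr p2 p3 p4) (a4 : 0 < tr p3 p4 p0)
    (s0 : 0 < tr p4 p0 p2 + tr p0 p1 p2) (s1 : 0 < tr p0 p1 p3 + tr p1 p2 p3)
    (s2 : 0 < tr p1 p2 p4 + tr p2 p3 p4) (s3 : 0 < tr p2 p3 p0 + tr p3 p4 p0)
    (s4 : 0 < tr p3 p4 p1 + tr p4 p0 p1) : Cvx p0 p1 p2 p3 p4 := by
  have r1 : tr p3 p0 p1 = tr p0 p1 p3 := (tr_rot _ _ _).symm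
  have r2 : tr p4 p1 p2 = tr p1 p2 p4 := (tr_rot _ _ _).symm
  have r3 : tr p0 p2 p3 = tr p2 p3 p0 := (tr_rot _ _ _).symm
  have r4 : tr p1 p3 p4 = tr p3 p4 p1 := (tr_rot _ _ _).symm
  have r0 : tr p2 p4 p0 = tr p4 p0 p2 := (tr_rot _ _ _).symm
  have c13 : 0 ≤ tr p1 p3 p4 → 0 < tr p3 p0 p1 := fun h =>
    sign_step a0 a1 s0 (by rw [r1]; exact s1) h
  have c24 : 0 ≤ tr p2 p4 p0 → 0 < tr p4 p1 p2 := fun h =>
    sign_step a1 a2 s1 (by rw [r2]; exact s2) h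
  have c30 : 0 ≤ tr p3 p0 p1 → 0 < tr p0 p2 p3 := fun h =>
    sign_step a2 a3 s2 (by rw [r3]; exact s3) h
  have c41 : 0 ≤ tr p4 p1 p2 → 0 < tr p1 p3 p4 := fun h =>
    sign_step a3 a4 s3 (by rw [r4]; exact s4) h
  have c02 : 0 ≤ tr p0 p2 p3 → 0 < tr p2 p4 p0 := fun h =>
    sign_step a4 a0 s4 (by rw [r0]; exact s0) h
  by_cases h : 0 ≤ tr p1 p3 p4
  · have t3 := c13 h
    have t0 := c30 t3.le
    have t2 := c02 t0.le
    have t4 := c24 t2.le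
    have t1 := c41 t4.le
    exact ⟨a0, a1, a2, a3, a4, t0, t1, t2, t3, t4⟩
  · push Not at h
    have t4 : tr p4 p1 p2 < 0 := by
      by_contra hc; push Not at hc; exact absurd (c41 hc) (not_lt.2 h.le)
    have t2 : tr p2 p4 p0 < 0 := by
      by_contra hc; push Not at hc; exact absurd (c24 hc) (not_lt.2 t4.le)
    have t0 : tr p0 p2 p3 < 0 := by
      by_contra hc; push Not at hc; exact absurd (c02 hc) (not_lt.2 t2.le)
    have t3 : tr p3 p0 p1 < 0 := by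
      by_contra hc; push Not at hc; exact absurd (c30 hc) (not_lt.2 t0.le)
    exact (no_star hF hle t0 h t2 t3 t4).elim

end Pool.Agent.Helper39.P5
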