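import Pool.Agent.Helper39.P5.Exist

/-!
# Inscribed pentagons of maximal area: the caps (MP_8bf717_co)
-/

set_option autoImplicit false

open MeasureTheory Set

namespace Pool.Agent.Helper39.P5

open Pool.Agent.Helper27.PHU Pool.Agent.Helper37.PH Pool.Agent.Helper61.PH

/-- the part of `K` beyond the line `p q` -/
def cap (K : Set (ℝ × ℝ)) (p q : ℝ × ℝ) : Set (ℝ × ℝ) := K ∩ {z | tr p q z < 0}

/-- the open triangle -/
def oT (p q r : ℝ × ℝ) : Set (ℝ × ℝ) := {z | 0 < tr p q z ∧ 0 < tr q r z ∧ 0 < tr r p z}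

theorem continuous_tr (p q : ℝ × ℝ) : Continuous fun z => tr p q z := by
  unfold tr cr
  fun_prop

theorem measurableSet_cap {K : Set (ℝ × ℝ)} (hK : IsBody K) (p q : ℝ × ℝ) :
    MeasurableSet (cap K p q) :=
  hK.compact.measurableSet.inter (isOpen_lt (continuous_tr p q) continuous_const).measurableSet

theorem isOpen_oT (p q r : ℝ × ℝ) : IsOpen (oT p q r) := by
  have h1 := isOpen_lt continuous_const (continuous_tr p q) (f := fun _ => (0 : ℝ))
  have h2 := isOpen_lt continuous_const (continuous_tr q r) (f := fun _ => (0 : ℝ))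
  have h3 := isOpen_lt continuous_const (continuous_tr r p) (f := fun _ => (0 : ℝ))
  exact h1.inter (h2.inter h3)

/-- barycentric coordinates -/
theorem tr_bary (p q r u v z : ℝ × ℝ) : tr p q r * tr u v z =
    tr q r z * tr u v p + tr r p z * tr u v q + tr p q z * tr u v r := by
  obtain ⟨x0, y0⟩ := p
  obtain ⟨x1, y1⟩ := q
  obtain ⟨x2, y2⟩ := r
  obtain ⟨x3, y3⟩ := u
  obtain ⟨x4, y4⟩ := v
  obtain ⟨x5, y5⟩ := z
  simp only [tr_eq]
  ring

theorem tr_sum3 (p q r z : ℝ × ℝ) : tr p q z + tr q r z + tr r p z = tr p q r := by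
  simp only [tr_eq]; ring

theorem bary_pt (p q r z : ℝ × ℝ) (hD : tr p q r ≠ 0) :
    z = (tr q r z / tr p q r) • p + (tr r p z / tr p q r) • q + (tr p q z / tr p q r) • r := by
  have e1 : tr p q r * z.1 = tr q r z * p.1 + tr r p z * q.1 + tr p q z * r.1 := by
    simp only [tr_eq]; ring
  have e2 : tr p q r * z.2 = tr q r z * p.2 + tr r p z * q.2 + tr p q z * r.2 := by
    simp only [tr_eq]; ring
  ext
  · simp only [Prod.fst_add, Prod.smul_fst, smul_eq_mul]
    field_simp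
    linarith
  · simp only [Prod.snd_add, Prod.smul_snd, smul_eq_mul]
    field_simp
    linarith

theorem oT_sub {K : Set (ℝ × ℝ)} (hK : Convex ℝ K) {p q r : ℝ × ℝ} (hp : p ∈ K) (hq : q ∈ K)
    (hr : r ∈ K) (hD : 0 < tr p q r) : oT p q r ⊆ K := by
  rintro z ⟨h1, h2, h3⟩
  rw [bary_pt p q r z hD.ne']
  have hs := tr_sum3 p q r z
  have hsum : tr q r z / tr p q r + tr r p z / tr p q r + tr p q z / tr p q r = 1 := by
    field_simp
    linarith
  set α := tr q r z / tr p q r with hα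
  set β := tr r p z / tr p q r with hβ
  set γ := tr p q z / tr p q r with hγ
  have ha : 0 < α := div_pos h2 hD
  have hb : 0 < β := div_pos h3 hD
  have hc : 0 < γ := div_pos h1 hD
  have hab : 0 < α + β := add_pos ha hb
  have h4 : (α / (α + β)) • p + (β / (α + β)) • q ∈ K :=
    hK hp hq (by positivity) (by positivity) (by field_simp)
  have h5 := hK h4 hr hab.le hc.le hsum
  have e : α • p + β • q + γ • r = (α + β) • ((α / (α + β)) • p + (β / (α + β)) • q) + γ • r := by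
    rw [smul_add, smul_smul, smul_smul]
    congr 2
    · congr 1; field_simp
    · congr 1; field_simp
  rw [e]
  exact h5

theorem oT_nonneg {p q r u v z : ℝ × ℝ} (hz : z ∈ oT p q r) (hD : 0 < tr p q r)
    (hp : 0 ≤ tr u v p) (hq : 0 ≤ tr u v q) (hr : 0 ≤ tr u v r) : 0 ≤ tr u v z := by
  obtain ⟨h1, h2, h3⟩ := hz
  have e := tr_bary p q r u v z
  have : 0 ≤ tr p q r * tr u v z := by
    rw [e]; positivity
  exact nonneg_of_mul_nonneg_right this hD

theorem vol_std : volume {z : ℝ × ℝ | 0 < z.1 ∧ 0 < z.2 ∧ z.1 + z.2 < 1} =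
    ENNReal.ofReal (1 / 2) := by
  have e : {z : ℝ × ℝ | 0 < z.1 ∧ 0 < z.2 ∧ z.1 + z.2 < 1} =
      regionBetween (fun _ : ℝ => (0 : ℝ)) (fun x : ℝ => 1 - x) (Ioo 0 1) := by
    ext z
    simp only [mem_ofPred_eq, regionBetween, mem_Ioo]
    constructor
    · rintro ⟨h1, h2, h3⟩
      exact ⟨⟨h1, by linarith⟩, h2, by linarith⟩
    · rintro ⟨⟨h1, h2⟩, h3, h4⟩
      exact ⟨h1, h3, by linarith⟩
  rw [e, Measure.volume_eq_prod, volume_regionBetween_eq_integral]
  · congr 1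
    have : ∫ y in Ioo (0 : ℝ) 1, ((fun x : ℝ => 1 - x) - fun _ : ℝ => (0 : ℝ)) y =
        ∫ y in (0 : ℝ)..1, (1 - y) := by
      rw [intervalIntegral.integral_of_le zero_le_one, integral_Ioc_eq_integral_Ioo]
      simp
    rw [this]
    rw [intervalIntegral.integral_sub (by simp) (by simp)]
    simp
    norm_num
  · exact (continuous_const.integrableOn_Icc (a := (0 : ℝ)) (b := 1)).mono_set Ioo_subset_Icc_self
  · exact ((continuous_const.sub continuous_id).integrableOn_Icc (a := (0 : ℝ)) (b := 1)).mono_set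
      Ioo_subset_Icc_self
  · exact measurableSet_Ioo
  · intro x hx
    show (0 : ℝ) ≤ 1 - x
    linarith [hx.2]

theorem vol_oT {p q r : ℝ × ℝ} (hD : 0 < tr p q r) :
    volume (oT p q r) = ENNReal.ofReal (tr p q r / 2) := by
  set M : Matrix (Fin 2) (Fin 2) ℝ :=
    !![q.1 - p.1, r.1 - p.1; q.2 - p.2, r.2 - p.2] with hM
  set L : (ℝ × ℝ) →ₗ[ℝ] (ℝ × ℝ) :=
    Matrix.toLin (Module.Basis.finTwoProd ℝ) (Module.Basis.finTwoProd ℝ) M with hL
  have hLa : ∀ x : ℝ × ℝ, L x =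
      ((q.1 - p.1) * x.1 + (r.1 - p.1) * x.2, (q.2 - p.2) * x.1 + (r.2 - p.2) * x.2) := by
    intro x
    rw [hL, hM, Matrix.toLin_finTwoProd_apply]
  have hdet : LinearMap.det L = tr p q r := by
    rw [hL, LinearMap.det_toLin, hM, Matrix.det_fin_two_of, tr_eq]
    ring
  set S : Set (ℝ × ℝ) := {z : ℝ × ℝ | 0 < z.1 ∧ 0 < z.2 ∧ z.1 + z.2 < 1} with hS
  have e : oT p q r = (fun z => z + -p) ⁻¹' (L '' S) := by
    ext z
    simp only [mem_preimage, mem_image]
    constructor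
    · rintro ⟨h1, h2, h3⟩
      refine ⟨(tr r p z / tr p q r, tr p q z / tr p q r), ⟨div_pos h3 hD, div_pos h1 hD, ?_⟩, ?_⟩
      · show tr r p z / tr p q r + tr p q z / tr p q r < 1
        rw [← add_div, div_lt_one hD]
        have := tr_sum3 p q r z
        linarith
      · rw [hLa]
        have hD' := hD.ne'
        ext
        · show (q.1 - p.1) * (tr r p z / tr p q r) + (r.1 - p.1) * (tr p q z / tr p q r) =
            z.1 + -p.1
          field_simp
          simp only [tr_eq]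
          ring
        · show (q.2 - p.2) * (tr r p z / tr p q r) + (r.2 - p.2) * (tr p q z / tr p q r) =
            z.2 + -p.2
          field_simp
          simp only [tr_eq]
          ring
    · rintro ⟨x, ⟨h1, h2, h3⟩, hx⟩
      rw [hLa] at hx
      have hx1 : z.1 = p.1 + ((q.1 - p.1) * x.1 + (r.1 - p.1) * x.2) := by
        have := congrArg Prod.fst hx
        simp only [Prod.fst_add, Prod.fst_neg] at this
        linarith
      have hx2 : z.2 = p.2 + ((q.2 - p.2) * x.1 + (r.2 - p.2) * x.2) := by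
        have := congrArg Prod.snd hx
        simp only [Prod.snd_add, Prod.snd_neg] at this
        linarith
      have e1 : tr p q z = x.2 * tr p q r := by
        simp only [tr_eq]; rw [hx1, hx2]; ring
      have e2 : tr r p z = x.1 * tr p q r := by
        simp only [tr_eq]; rw [hx1, hx2]; ring
      have e3 : tr q r z = (1 - x.1 - x.2) * tr p q r := by
        simp only [tr_eq]; rw [hx1, hx2]; ring
      refine ⟨?_, ?_, ?_⟩
      · rw [e1]; exact mul_pos h2 hD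
      · rw [e3]; exact mul_pos (by linarith) hD
      · rw [e2]; exact mul_pos h1 hD
  rw [e, measure_preimage_add_right, Measure.addHaar_image_linearMap, hdet, abs_of_pos hD, vol_std,
    ← ENNReal.ofReal_mul hD.le]
  congr 1
  ring

/-- Not beyond two adjacent sides. -/
theorem Pent.disj_adj {K : Set (ℝ × ℝ)} {p0 p1 p2 p3 p4 : ℝ × ℝ} (h : Pent K p0 p1 p2 p3 p4) :
    Disjoint (cap K p0 p1) (cap K p1 p2) := by
  rw [Set.disjoint_left]
  rintro z ⟨hz, h1⟩ ⟨-, h2⟩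
  have := h.s1 hz
  simp only [mem_ofPred_eq] at h1 h2
  linarith

theorem side_id1 (p0 p1 p2 p3 z : ℝ × ℝ) :
    tr p1 p2 p3 * tr p0 p1 z + (tr p0 p1 p2 - tr p3 p0 p1) * tr p1 p2 z +
      tr p0 p1 p2 * tr p2 p3 z = tr p0 p1 p2 * tr p1 p2 p3 := by
  obtain ⟨x0, y0⟩ := p0
  obtain ⟨x1, y1⟩ := p1
  obtain ⟨x2, y2⟩ := p2
  obtain ⟨x3, y3⟩ := p3
  obtain ⟨x5, y5⟩ := z
  simp only [tr_eq]
  ring

theorem side_id2 (p0 p1 p2 p3 p4 : ℝ × ℝ) :
    (tr p3 p0 p1 - tr p4 p0 p1) * (tr p0 p2 p3 - tr p2 p3 p4) =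
      tr p2 p3 p4 * tr p4 p0 p1 + (tr p0 p1 p2 - tr p3 p0 p1) * tr p3 p4 p0 := by
  obtain ⟨x0, y0⟩ := p0
  obtain ⟨x1, y1⟩ := p1
  obtain ⟨x2, y2⟩ := p2
  obtain ⟨x3, y3⟩ := p3
  obtain ⟨x4, y4⟩ := p4
  simp only [tr_eq]
  ring

theorem side_id3 (p0 p1 p2 p3 p4 z : ℝ × ℝ) :
    (tr p0 p1 p2 - tr p3 p0 p1) * tr p3 p4 z = (tr p3 p0 p1 - tr p4 p0 p1) * tr p2 p3 z +
      tr p2 p3 p4 * tr p0 p1 z - tr p2 p3 p4 * tr p3 p0 p1 := by
  obtain ⟨x0, y0⟩ := p0
  obtain ⟨x1, y1⟩ := p1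
  obtain ⟨x2, y2⟩ := p2
  obtain ⟨x3, y3⟩ := p3
  obtain ⟨x4, y4⟩ := p4
  obtain ⟨x5, y5⟩ := z
  simp only [tr_eq]
  ring

/-- Not beyond two non-adjacent sides. -/
theorem Pent.disj_opp {K : Set (ℝ × ℝ)} {p0 p1 p2 p3 p4 : ℝ × ℝ} (h : Pent K p0 p1 p2 p3 p4) :
    Disjoint (cap K p0 p1) (cap K p2 p3) := by
  rw [Set.disjoint_left]
  rintro z ⟨hz, h0⟩ ⟨-, h2⟩
  simp only [mem_ofPred_eq] at h0 h2
  have c := h.cvx
  have g1 := h.s1 hz
  have g3 := h.rot.rot.s1 hz
  have s1 : 0 < tr p1 p2 z := by linarith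
  have s3 : 0 < tr p3 p4 z := by linarith
  have i1 := side_id1 p0 p1 p2 p3 z
  have i2 := side_id2 p0 p1 p2 p3 p4
  have i3 := side_id3 p0 p1 p2 p3 p4 z
  have hD : 0 < tr p0 p1 p2 - tr p3 p0 p1 := by
    have m1 := mul_pos c.a1 c.a2
    have m2 := mul_pos c.a2 (neg_pos.2 h0)
    have m3 := mul_pos c.a1 (neg_pos.2 h2)
    have : 0 < (tr p0 p1 p2 - tr p3 p0 p1) * tr p1 p2 z := by
      linarith
    exact (mul_pos_iff_of_pos_right s1).1 this
  have hc : 0 < tr p3 p0 p1 - tr p4 p0 p1 := by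
    by_contra hc
    push Not at hc
    have m1 := mul_pos c.a3 c.a0
    have m2 := mul_pos hD c.a4
    have hprod : 0 < (tr p3 p0 p1 - tr p4 p0 p1) * (tr p0 p2 p3 - tr p2 p3 p4) := by
      rw [i2]; linarith
    have hd : tr p0 p2 p3 - tr p2 p3 p4 < 0 := by
      by_contra hd
      push Not at hd
      have := mul_nonneg (neg_nonneg.2 hc) hd
      linarith
    -- contradiction from the identity
    have k1 := mul_pos c.t0 c.a0
    have k2 := mul_nonneg (neg_nonneg.2 hd.le) c.t3.le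
    nlinarith
  have n1 := mul_pos hc (neg_pos.2 h2)
  have n2 := mul_pos c.a3 (neg_pos.2 h0)
  have n3 := mul_pos c.a3 c.t3
  have n4 := mul_pos hD s3
  linarith

/-- the side functionals are nonnegative on the vertices -/
theorem Cvx.side_nonneg {p0 p1 p2 p3 p4 : ℝ × ℝ} (c : Cvx p0 p1 p2 p3 p4) :
    0 ≤ tr p0 p1 p0 ∧ 0 ≤ tr p0 p1 p1 ∧ 0 ≤ tr p0 p1 p2 ∧ 0 ≤ tr p0 p1 p3 ∧ 0 ≤ tr p0 p1 p4 := by
  refine ⟨?_, ?_, c.a1.le, ?_, ?_⟩
  · rw [tr_self_out]
  · rw [tr_self_right]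
  · rw [tr_rot p3 p0 p1]; exact c.t3.le
  · rw [tr_rot p4 p0 p1]; exact c.a0.le

theorem disj_of_nonneg {K A : Set (ℝ × ℝ)} {p q : ℝ × ℝ} (h : ∀ z ∈ A, 0 ≤ tr p q z) :
    Disjoint A (cap K p q) := by
  rw [Set.disjoint_left]
  rintro z hz ⟨-, h1⟩
  exact absurd (h z hz) (not_le.2 h1)

/-- The area of `K` is at least the area of the pentagon plus the areas of the caps. -/
theorem Pent.area {K : Set (ℝ × ℝ)} {p0 p1 p2 p3 p4 : ℝ × ℝ} (h : Pent K p0 p1 p2 p3 p4) :
    ENNReal.ofReal (sh p0 p1 p2 p3 p4 / 2) + (volume (cap K p0 p1) + volume (cap K p1 p2) +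
      volume (cap K p2 p3) + volume (cap K p3 p4) + volume (cap K p4 p0)) ≤ volume K := by
  have c := h.cvx
  have h1 := h.rot
  have h2 := h1.rot
  have h3 := h2.rot
  have h4 := h3.rot
  have hm := fun p q => measurableSet_cap h.body p q
  have t034 : 0 < tr p0 p3 p4 := by
    have := c.a4
    rw [← tr_rot p0 p3 p4]; exact this
  -- the caps
  have u1 : volume (cap K p0 p1 ∪ cap K p1 p2) = volume (cap K p0 p1) + volume (cap K p1 p2) :=
    measure_union h.disj_adj (hm _ _)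
  have u2 : volume (cap K p0 p1 ∪ cap K p1 p2 ∪ cap K p2 p3) =
      volume (cap K p0 p1) + volume (cap K p1 p2) + volume (cap K p2 p3) := by
    rw [measure_union (disjoint_union_left.2 ⟨h.disj_opp, h1.disj_adj⟩) (hm _ _), u1]
  have u3 : volume (cap K p0 p1 ∪ cap K p1 p2 ∪ cap K p2 p3 ∪ cap K p3 p4) =
      volume (cap K p0 p1) + volume (cap K p1 p2) + volume (cap K p2 p3) +
        volume (cap K p3 p4) := by
    rw [measure_union (disjoint_union_left.2 ⟨disjoint_union_left.2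
      ⟨h3.disj_opp.symm, h1.disj_opp⟩, h2.disj_adj⟩) (hm _ _), u2]
  have u4 : volume (cap K p0 p1 ∪ cap K p1 p2 ∪ cap K p2 p3 ∪ cap K p3 p4 ∪ cap K p4 p0) =
      volume (cap K p0 p1) + volume (cap K p1 p2) + volume (cap K p2 p3) +
        volume (cap K p3 p4) + volume (cap K p4 p0) := by
    rw [measure_union (disjoint_union_left.2 ⟨disjoint_union_left.2 ⟨disjoint_union_left.2
      ⟨h4.disj_adj.symm, h4.disj_opp.symm⟩, h2.disj_opp⟩, h3.disj_adj⟩) (hm _ _), u3]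
  -- the triangles
  have d12 : Disjoint (oT p0 p1 p2) (oT p0 p2 p3) := by
    rw [Set.disjoint_left]
    rintro z ⟨-, -, g1⟩ ⟨g2, -, -⟩
    rw [tr_swap] at g1
    linarith
  have d23 : Disjoint (oT p0 p2 p3) (oT p0 p3 p4) := by
    rw [Set.disjoint_left]
    rintro z ⟨-, -, g1⟩ ⟨g2, -, -⟩
    rw [tr_swap] at g1
    linarith
  have d13 : Disjoint (oT p0 p1 p2) (oT p0 p3 p4) := by
    rw [Set.disjoint_left]
    rintro z ⟨-, -, g1⟩ g2
    have g3 : 0 ≤ tr p0 p2 z := oT_nonneg g2 t034 (by rw [tr_self_out]) c.t0.le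
      (by have := c.t2; rw [tr_rot p0 p2 p4] at this; exact this.le)
    rw [tr_swap] at g1
    linarith
  have v1 : volume (oT p0 p1 p2 ∪ oT p0 p2 p3) =
      volume (oT p0 p1 p2) + volume (oT p0 p2 p3) := measure_union d12 (isOpen_oT _ _ _).measurableSet
  have v2 : volume (oT p0 p1 p2 ∪ oT p0 p2 p3 ∪ oT p0 p3 p4) =
      ENNReal.ofReal (sh p0 p1 p2 p3 p4 / 2) := by
    rw [measure_union (disjoint_union_left.2 ⟨d13, d23⟩) (isOpen_oT _ _ _).measurableSet, v1,
      vol_oT c.a1, vol_oT c.t0, vol_oT t034, ← ENNReal.ofReal_add (by linarith [c.a1])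
        (by linarith [c.t0]), ← ENNReal.ofReal_add (by linarith [c.a1, c.t0]) (by linarith), sh_fan]
    congr 1
    ring
  -- disjointness of triangles and caps
  have key : ∀ {q0 q1 q2 q3 q4 : ℝ × ℝ}, Cvx q0 q1 q2 q3 q4 →
      ∀ p ∈ ({q0, q1, q2, q3, q4} : Set (ℝ × ℝ)), ∀ q ∈ ({q0, q1, q2, q3, q4} : Set (ℝ × ℝ)),
      ∀ r ∈ ({q0, q1, q2, q3, q4} : Set (ℝ × ℝ)), 0 < tr p q r → ∀ z ∈ oT p q r,
        0 ≤ tr q0 q1 z := by
    intro q0 q1 q2 q3 q4 cc p hp q hq r hr hD z hz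
    obtain ⟨g0, g1, g2, g3, g4⟩ := cc.side_nonneg
    have hall : ∀ x ∈ ({q0, q1, q2, q3, q4} : Set (ℝ × ℝ)), 0 ≤ tr q0 q1 x := by
      intro x hx
      simp only [mem_insert_iff, mem_singleton_iff] at hx
      rcases hx with rfl | rfl | rfl | rfl | rfl <;> assumption
    exact oT_nonneg hz hD (hall p hp) (hall q hq) (hall r hr)
  have tri : ∀ {q0 q1 q2 q3 q4 : ℝ × ℝ}, Cvx q0 q1 q2 q3 q4 →
      (∀ x ∈ ({p0, p1, p2, p3, p4} : Set (ℝ × ℝ)), x ∈ ({q0, q1, q2, q3, q4} : Set (ℝ × ℝ))) →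
      Disjoint (oT p0 p1 p2 ∪ oT p0 p2 p3 ∪ oT p0 p3 p4) (cap K q0 q1) := by
    intro q0 q1 q2 q3 q4 cc hsub
    have i0 := hsub p0 (by simp)
    have i1 := hsub p1 (by simp)
    have i2 := hsub p2 (by simp)
    have i3 := hsub p3 (by simp)
    have i4 := hsub p4 (by simp)
    apply disj_of_nonneg
    rintro z ((hz | hz) | hz)
    · exact key cc _ i0 _ i1 _ i2 c.a1 z hz
    · exact key cc _ i0 _ i2 _ i3 c.t0 z hz
    · exact key cc _ i0 _ i3 _ i4 t034 z hz
  have w : Disjoint (oT p0 p1 p2 ∪ oT p0 p2 p3 ∪ oT p0 p3 p4)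
      (cap K p0 p1 ∪ cap K p1 p2 ∪ cap K p2 p3 ∪ cap K p3 p4 ∪ cap K p4 p0) := by
    refine disjoint_union_right.2 ⟨disjoint_union_right.2 ⟨disjoint_union_right.2
      ⟨disjoint_union_right.2 ⟨?_, ?_⟩, ?_⟩, ?_⟩, ?_⟩
    · exact tri c (by simp)
    · apply tri c.rot
      intro x hx
      simp only [mem_insert_iff, mem_singleton_iff] at hx ⊢
      tauto
    · apply tri c.rot.rot
      intro x hx
      simp only [mem_insert_iff, mem_singleton_iff] at hx ⊢
      tauto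
    · apply tri c.rot.rot.rot
      intro x hx
      simp only [mem_insert_iff, mem_singleton_iff] at hx ⊢
      tauto
    · apply tri c.rot.rot.rot.rot
      intro x hx
      simp only [mem_insert_iff, mem_singleton_iff] at hx ⊢
      tauto
  have hmC : MeasurableSet (cap K p0 p1 ∪ cap K p1 p2 ∪ cap K p2 p3 ∪ cap K p3 p4 ∪ cap K p4 p0) :=
    ((((hm _ _).union (hm _ _)).union (hm _ _)).union (hm _ _)).union (hm _ _)
  rw [← u4, ← v2, ← measure_union w hmC]
  apply measure_mono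
  have hK := h.body.convex
  have cs : ∀ p q, cap K p q ⊆ K := fun p q => inter_subset_left
  refine union_subset (union_subset (union_subset (oT_sub hK h.m0 h.m1 h.m2 c.a1)
    (oT_sub hK h.m0 h.m2 h.m3 c.t0)) (oT_sub hK h.m0 h.m3 h.m4 t034)) ?_
  exact union_subset (union_subset (union_subset (union_subset (cs _ _) (cs _ _)) (cs _ _))
    (cs _ _)) (cs _ _)

/-- The same with real numbers. -/
theorem Pent.area_real {K : Set (ℝ × ℝ)} {p0 p1 p2 p3 p4 : ℝ × ℝ} (h : Pent K p0 p1 p2 p3 p4) :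
    sh p0 p1 p2 p3 p4 / 2 + ((volume (cap K p0 p1)).toReal + (volume (cap K p1 p2)).toReal +
      (volume (cap K p2 p3)).toReal + (volume (cap K p3 p4)).toReal +
      (volume (cap K p4 p0)).toReal) ≤ (volume K).toReal := by
  have hfin : volume K ≠ ⊤ := h.body.compact.measure_lt_top.ne
  have hc : ∀ p q, volume (cap K p q) ≠ ⊤ := fun p q =>
    ((measure_mono inter_subset_left).trans_lt hfin.lt_top).ne
  have hpos : 0 ≤ sh p0 p1 p2 p3 p4 / 2 := by
    have c := h.cvx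
    have := c.a4
    rw [tr_rot p0 p3 p4] at this
    rw [sh_fan]
    linarith [c.a1, c.t0]
  have key := ENNReal.toReal_mono hfin h.area
  rw [ENNReal.toReal_add ENNReal.ofReal_ne_top (by simp [hc]),
    ENNReal.toReal_ofReal hpos, ENNReal.toReal_add (by simp [hc]) (hc _ _),
    ENNReal.toReal_add (by simp [hc]) (hc _ _), ENNReal.toReal_add (by simp [hc]) (hc _ _),
    ENNReal.toReal_add (hc _ _) (hc _ _)] at key
  exact key

end Pool.Agent.Helper39.P5
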