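import Pool.Agent.Helper39.P5.Alg
import Pool.Agent.Helper61.PHU.Strict
import Pool.Agent.Helper83.PHU.Tools

/-!
# Inscribed pentagons of maximal area: existence (MP_8bf717_co)
-/

set_option autoImplicit false

open MeasureTheory Set

namespace Pool.Agent.Helper39.P5

open Pool.Agent.Helper27.PHU Pool.Agent.Helper37.PH Pool.Agent.Helper61.PH

/-- `p0 p1 p2 p3 p4` is a (strictly convex, positively oriented) pentagon inscribed in `K` whose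
area is maximal among ALL closed pentagons with vertices in `K`. -/
structure Pent (K : Set (ℝ × ℝ)) (p0 p1 p2 p3 p4 : ℝ × ℝ) : Prop where
  body : IsBody K
  m0 : p0 ∈ K
  m1 : p1 ∈ K
  m2 : p2 ∈ K
  m3 : p3 ∈ K
  m4 : p4 ∈ K
  maxi : ∀ q0 ∈ K, ∀ q1 ∈ K, ∀ q2 ∈ K, ∀ q3 ∈ K, ∀ q4 ∈ K,
    sh q0 q1 q2 q3 q4 ≤ sh p0 p1 p2 p3 p4
  cvx : Cvx p0 p1 p2 p3 p4

theorem Pent.rot {K : Set (ℝ × ℝ)} {p0 p1 p2 p3 p4 : ℝ × ℝ} (h : Pent K p0 p1 p2 p3 p4) :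
    Pent K p1 p2 p3 p4 p0 := by
  refine ⟨h.body, h.m1, h.m2, h.m3, h.m4, h.m0, ?_, h.cvx.rot⟩
  intro q0 h0 q1 h1 q2 h2 q3 h3 q4 h4
  rw [sh_rot p0 p1 p2 p3 p4]
  exact h.maxi q0 h0 q1 h1 q2 h2 q3 h3 q4 h4

/-- `S1` at `p1`: `K` lies on one side of the line through `p1` parallel to `p0 p2`. -/
theorem Pent.s1 {K : Set (ℝ × ℝ)} {p0 p1 p2 p3 p4 : ℝ × ℝ} (h : Pent K p0 p1 p2 p3 p4)
    {z : ℝ × ℝ} (hz : z ∈ K) : 0 ≤ tr p0 p1 z + tr p1 p2 z := by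
  have := h.maxi p0 h.m0 z hz p2 h.m2 p3 h.m3 p4 h.m4
  rw [sh_repl p0 p1 p2 p3 p4 z] at this
  linarith

theorem tr_eq (p q r : ℝ × ℝ) : tr p q r = (q.1 - p.1) * (r.2 - p.2) - (q.2 - p.2) * (r.1 - p.1) :=
  rfl

theorem tr_mid (p q : ℝ × ℝ) : tr p q ((1 / 2 : ℝ) • (p + q)) = 0 := by
  simp only [tr_eq, Prod.smul_fst, Prod.smul_snd, Prod.fst_add, Prod.snd_add, smul_eq_mul]
  ring

/-- an interior point is not extreme -/
theorem exists_tr_lt {K : Set (ℝ × ℝ)} {p q m : ℝ × ℝ} (hpq : p ≠ q) (hm : m ∈ interior K) :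
    ∃ z ∈ K, tr p q z < tr p q m := by
  obtain ⟨ε, hε, hball⟩ := Metric.mem_nhds_iff.1 (isOpen_interior.mem_nhds hm)
  set a := q.1 - p.1 with ha
  set b := q.2 - p.2 with hb
  have hpos : 0 < a ^ 2 + b ^ 2 := by
    by_contra hc
    push Not at hc
    have h1 : a ^ 2 = 0 := le_antisymm (by nlinarith [sq_nonneg b]) (sq_nonneg _)
    have h2 : b ^ 2 = 0 := le_antisymm (by nlinarith [sq_nonneg a]) (sq_nonneg _)
    have h3 : a = 0 := by simpa using h1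
    have h4 : b = 0 := by simpa using h2
    exact hpq (Prod.ext (by linarith) (by linarith))
  set M := |a| + |b| + 1 with hM
  have hM0 : 0 < M := by positivity
  set t := ε / (2 * M) with ht
  have ht0 : 0 < t := by positivity
  have htM : t * M = ε / 2 := by rw [ht]; field_simp
  refine ⟨(m.1 + t * b, m.2 - t * a), ?_, ?_⟩
  · apply interior_subset
    apply hball
    rw [Metric.mem_ball, Prod.dist_eq, max_lt_iff]
    constructor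
    · show dist (m.1 + t * b) m.1 < ε
      rw [Real.dist_eq, add_sub_cancel_left, abs_mul, abs_of_pos ht0]
      have : t * |b| ≤ t * M := by
        apply mul_le_mul_of_nonneg_left _ ht0.le
        rw [hM]; linarith [abs_nonneg a]
      linarith
    · show dist (m.2 - t * a) m.2 < ε
      rw [Real.dist_eq, sub_sub_cancel_left, abs_neg, abs_mul, abs_of_pos ht0]
      have : t * |a| ≤ t * M := by
        apply mul_le_mul_of_nonneg_left _ ht0.le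
        rw [hM]; linarith [abs_nonneg b]
      linarith
  · simp only [tr_eq]
    rw [← ha, ← hb]
    have := mul_pos ht0 hpos
    nlinarith

/-- maximal closed pentagons of a strictly convex body -/
structure Mx (K : Set (ℝ × ℝ)) (p0 p1 p2 p3 p4 : ℝ × ℝ) : Prop where
  sb : SBody K
  m0 : p0 ∈ K
  m1 : p1 ∈ K
  m2 : p2 ∈ K
  m3 : p3 ∈ K
  m4 : p4 ∈ K
  pos : 0 < sh p0 p1 p2 p3 p4
  maxi : ∀ q0 ∈ K, ∀ q1 ∈ K, ∀ q2 ∈ K, ∀ q3 ∈ K, ∀ q4 ∈ K,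
    sh q0 q1 q2 q3 q4 ≤ sh p0 p1 p2 p3 p4

theorem Mx.rot {K : Set (ℝ × ℝ)} {p0 p1 p2 p3 p4 : ℝ × ℝ} (h : Mx K p0 p1 p2 p3 p4) :
    Mx K p1 p2 p3 p4 p0 := by
  refine ⟨h.sb, h.m1, h.m2, h.m3, h.m4, h.m0, ?_, ?_⟩
  · rw [sh_rot]; exact h.pos
  · intro q0 h0 q1 h1 q2 h2 q3 h3 q4 h4
    rw [sh_rot p0 p1 p2 p3 p4]
    exact h.maxi q0 h0 q1 h1 q2 h2 q3 h3 q4 h4

theorem exists_Mx {K : Set (ℝ × ℝ)} (hS : SBody K) : ∃ p0 p1 p2 p3 p4, Mx K p0 p1 p2 p3 p4 := by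
  have hne : K.Nonempty := hS.body.interior_nonempty.mono interior_subset
  have hk := hS.body.compact
  have hcpt : IsCompact (K ×ˢ (K ×ˢ (K ×ˢ (K ×ˢ K)))) :=
    hk.prod (hk.prod (hk.prod (hk.prod hk)))
  have hcont : Continuous fun z : (ℝ × ℝ) × ((ℝ × ℝ) × ((ℝ × ℝ) × ((ℝ × ℝ) × (ℝ × ℝ)))) =>
      sh z.1 z.2.1 z.2.2.1 z.2.2.2.1 z.2.2.2.2 := by
    unfold sh cr
    fun_prop
  obtain ⟨z, hz, hmax⟩ := hcpt.exists_isMaxOn
    (hne.prod (hne.prod (hne.prod (hne.prod hne)))) hcont.continuousOn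
  obtain ⟨p0, p1, p2, p3, p4⟩ := z
  obtain ⟨h0, h1, h2, h3, h4⟩ := hz
  have hall : ∀ q0 ∈ K, ∀ q1 ∈ K, ∀ q2 ∈ K, ∀ q3 ∈ K, ∀ q4 ∈ K,
      sh q0 q1 q2 q3 q4 ≤ sh p0 p1 p2 p3 p4 := by
    intro q0 g0 q1 g1 q2 g2 q3 g3 q4 g4
    exact hmax (show ((q0, q1, q2, q3, q4) :
      (ℝ × ℝ) × ((ℝ × ℝ) × ((ℝ × ℝ) × ((ℝ × ℝ) × (ℝ × ℝ))))) ∈
      K ×ˢ (K ×ˢ (K ×ˢ (K ×ˢ K))) from ⟨g0, g1, g2, g3, g4⟩)
  refine ⟨p0, p1, p2, p3, p4, hS, h0, h1, h2, h3, h4, ?_, hall⟩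
  -- positivity: a small triangle
  obtain ⟨x, hx⟩ := hS.body.interior_nonempty
  obtain ⟨ε, hε, hball⟩ := Metric.mem_nhds_iff.1 (isOpen_interior.mem_nhds hx)
  have g1 : (x.1 + ε / 2, x.2) ∈ K := by
    apply interior_subset
    apply hball
    rw [Metric.mem_ball, Prod.dist_eq, max_lt_iff]
    refine ⟨?_, ?_⟩
    · show dist (x.1 + ε / 2) x.1 < ε
      rw [Real.dist_eq, add_sub_cancel_left, abs_of_pos (by linarith)]
      linarith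
    · show dist x.2 x.2 < ε
      rw [dist_self]; exact hε
  have g2 : (x.1, x.2 + ε / 2) ∈ K := by
    apply interior_subset
    apply hball
    rw [Metric.mem_ball, Prod.dist_eq, max_lt_iff]
    refine ⟨?_, ?_⟩
    · show dist x.1 x.1 < ε
      rw [dist_self]; exact hε
    · show dist (x.2 + ε / 2) x.2 < ε
      rw [Real.dist_eq, add_sub_cancel_left, abs_of_pos (by linarith)]
      linarith
  have g3 := hall x (interior_subset hx) _ g1 _ g2 _ g2 _ g2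
  refine lt_of_lt_of_le ?_ g3
  have e : sh x (x.1 + ε / 2, x.2) (x.1, x.2 + ε / 2) (x.1, x.2 + ε / 2) (x.1, x.2 + ε / 2) =
      ε / 2 * (ε / 2) := by
    unfold sh cr
    ring
  rw [e]
  positivity

theorem Mx.ne02 {K : Set (ℝ × ℝ)} {p0 p1 p2 p3 p4 : ℝ × ℝ} (h : Mx K p0 p1 p2 p3 p4) :
    p0 ≠ p2 := by
  rintro rfl
  have e1 : sh p0 p1 p0 p3 p4 = tr p0 p3 p4 := by
    rw [sh_fan, tr_self_out, tr_self_left]; ring
  have hpos := h.pos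
  rw [e1] at hpos
  have hne : p0 ≠ p3 := by
    rintro rfl
    rw [tr_self_left] at hpos
    exact lt_irrefl _ hpos
  obtain ⟨w, hw, hlt⟩ := exists_tr_lt hne (h.sb.strict p0 h.m0 p3 h.m3 hne)
  rw [tr_mid] at hlt
  have h2 := h.maxi p0 h.m0 w hw p3 h.m3 p4 h.m4 p4 h.m4
  rw [e1, sh_fan, tr_self_right] at h2
  have e3 : tr p0 w p3 = -tr p0 p3 w := by
    simp only [tr_eq]; ring
  linarith

theorem Mx.ne01 {K : Set (ℝ × ℝ)} {p0 p1 p2 p3 p4 : ℝ × ℝ} (h : Mx K p0 p1 p2 p3 p4) :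
    p0 ≠ p1 := by
  rintro rfl
  have hne := h.ne02
  obtain ⟨w, hw, hlt⟩ := exists_tr_lt hne (h.sb.strict p0 h.m0 p2 h.m2 hne)
  rw [tr_mid] at hlt
  have h2 := h.maxi p0 h.m0 w hw p2 h.m2 p3 h.m3 p4 h.m4
  rw [sh_repl p0 p0 p2 p3 p4 w, tr_self_left] at h2
  linarith

theorem tr_sum (p0 p1 p2 z : ℝ × ℝ) : tr p0 p1 z + tr p1 p2 z = tr p0 p1 p2 + tr p0 p2 z := by
  simp only [tr_eq]; ring

theorem Mx.strict1 {K : Set (ℝ × ℝ)} {p0 p1 p2 p3 p4 : ℝ × ℝ} (h : Mx K p0 p1 p2 p3 p4)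
    {z : ℝ × ℝ} (hz : z ∈ K) (hne : z ≠ p1) : 0 < tr p0 p1 z + tr p1 p2 z := by
  have hS1 : ∀ w ∈ K, 0 ≤ tr p0 p1 w + tr p1 p2 w := by
    intro w hw
    have := h.maxi p0 h.m0 w hw p2 h.m2 p3 h.m3 p4 h.m4
    rw [sh_repl p0 p1 p2 p3 p4 w] at this
    linarith
  by_contra hc
  push Not at hc
  have h0 : tr p0 p1 z + tr p1 p2 z = 0 := le_antisymm hc (hS1 z hz)
  obtain ⟨w, hw, hlt⟩ := exists_tr_lt h.ne02 (h.sb.strict p1 h.m1 z hz hne.symm)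
  have h1 := hS1 w hw
  rw [tr_sum] at h1 h0
  have e : tr p0 p2 ((1 / 2 : ℝ) • (p1 + z)) = (tr p0 p2 p1 + tr p0 p2 z) / 2 := by
    simp only [tr_eq, Prod.smul_fst, Prod.smul_snd, Prod.fst_add, Prod.snd_add, smul_eq_mul]
    ring
  have e2 : tr p0 p2 p1 = -tr p0 p1 p2 := by simp only [tr_eq]; ring
  rw [e, e2] at hlt
  linarith

theorem Mx.p5 {K : Set (ℝ × ℝ)} {p0 p1 p2 p3 p4 : ℝ × ℝ} (h : Mx K p0 p1 p2 p3 p4) :
    Pent K p0 p1 p2 p3 p4 := by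
  have g0 := h
  have g1 := g0.rot
  have g2 := g1.rot
  have g3 := g2.rot
  have g4 := g3.rot
  have ear : ∀ {q0 q1 q2 q3 q4 : ℝ × ℝ}, Mx K q0 q1 q2 q3 q4 → 0 < tr q0 q1 q2 := by
    intro q0 q1 q2 q3 q4 g
    have := g.strict1 g.m0 g.ne01
    rw [tr_self_out] at this
    rw [tr_rot q0 q1 q2] at this
    linarith
  refine ⟨h.sb.body, h.m0, h.m1, h.m2, h.m3, h.m4, h.maxi, ?_⟩
  apply cvx_of h.pos (h.maxi p0 h.m0 p3 h.m3 p1 h.m1 p4 h.m4 p2 h.m2)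
    (ear g4) (ear g0) (ear g1) (ear g2) (ear g3)
  · exact g4.strict1 g4.m3 h.ne02.symm
  · exact g0.strict1 h.m3 g1.ne02.symm
  · exact g1.strict1 h.m4 g2.ne02.symm
  · exact g2.strict1 h.m0 g3.ne02.symm
  · exact g3.strict1 h.m1 g4.ne02.symm

theorem exists_Pent {K : Set (ℝ × ℝ)} (hS : SBody K) :
    ∃ p0 p1 p2 p3 p4, Pent K p0 p1 p2 p3 p4 := by
  obtain ⟨p0, p1, p2, p3, p4, h⟩ := exists_Mx hS
  exact ⟨p0, p1, p2, p3, p4, h.p5⟩

/-- Reduction of `H ≤ C` to any class of bodies that contains an affine image of every strictly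
convex body. -/
theorem H_le_of {C : ℝ} (hC : 0 ≤ C) {Q : Set (ℝ × ℝ) → Prop}
    (hex : ∀ K, SBody K → ∃ (L : (ℝ × ℝ) ≃ₗ[ℝ] (ℝ × ℝ)) (c : ℝ × ℝ), Q (affE L c '' K))
    (h : ∀ K, Q K → Cov K (C * (volume K).toReal)) : H ≤ ENNReal.ofReal C := by
  unfold H
  refine iSup₂_le fun K hK => ?_
  obtain ⟨hbody, hvol⟩ := hK
  apply ENNReal.le_of_forall_pos_le_add
  intro ε hε _
  have hε' : (0 : ℝ) < ε := hε
  set δ : ℝ := ε / (2 * (C + 1)) with hδ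
  have hδ0 : 0 < δ := by rw [hδ]; positivity
  have hCδ : C * δ ≤ ε / 2 := by
    have e : (C + 1) * δ = ε / 2 := by rw [hδ]; field_simp
    nlinarith
  obtain ⟨K', hS, hsub, hv⟩ := Pool.Agent.Helper61.PHU.strict_approx hbody hδ0
  obtain ⟨L, c, hQ⟩ := hex K' hS
  have hCv := h _ hQ
  have hv' : volume (affE L c '' K') = ENNReal.ofReal
      |LinearMap.det (L : (ℝ × ℝ) →ₗ[ℝ] (ℝ × ℝ))| * volume K' := volume_affE L c K'
  have hvr : (volume (affE L c '' K')).toReal =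
      |LinearMap.det (L : (ℝ × ℝ) →ₗ[ℝ] (ℝ × ℝ))| * (volume K').toReal := by
    rw [hv', ENNReal.toReal_mul, ENNReal.toReal_ofReal (abs_nonneg _)]
  have hC2 : Cov K' (C * (volume K').toReal) := by
    apply Pool.Agent.Helper83.PHU.Cov_affE L c
    rw [hvr] at hCv
    have e : C * (|LinearMap.det (L : (ℝ × ℝ) →ₗ[ℝ] (ℝ × ℝ))| * (volume K').toReal) =
        |LinearMap.det (L : (ℝ × ℝ) →ₗ[ℝ] (ℝ × ℝ))| * (C * (volume K').toReal) := by ring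
    rwa [e] at hCv
  obtain ⟨P, hP, hKP, hvP⟩ := hC2 (ε / 2) (by linarith)
  have hstar_le : hstar K ≤ volume P := by
    unfold hstar
    exact iInf₂_le P ⟨hP, hsub.trans hKP⟩
  refine hstar_le.trans (hvP.trans ?_)
  have hvt : (volume K').toReal ≤ 1 + δ := by
    have h1 : volume K' ≤ ENNReal.ofReal (1 + δ) := by
      refine hv.trans ?_
      rw [hvol, ENNReal.ofReal_add (by norm_num) (by linarith), ENNReal.ofReal_one]
    exact ENNReal.toReal_le_of_le_ofReal (by linarith) h1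
  rw [← ENNReal.ofReal_add (by positivity) (by linarith)]
  have e2 : (ε : ENNReal) = ENNReal.ofReal (ε : ℝ) := by rw [ENNReal.ofReal_coe_nnreal]
  rw [e2, ← ENNReal.ofReal_add hC hε'.le]
  apply ENNReal.ofReal_le_ofReal
  have := mul_le_mul_of_nonneg_left hvt hC
  linarith

end Pool.Agent.Helper39.P5
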