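import Pool.Agent.Helper39.P5.Area
import Pool.Agent.Helper8.PH5.Upper

/-!
# Inscribed pentagons of maximal area: the normal form (MP_8bf717_co)

The pentagon is labelled such that the golden triangle `p0 p2 p3` is the largest of the five, and
an affine map takes `p0, p2, p3` to `(0, 1), (-1, 0), (1, 0)`.
-/

set_option autoImplicit false

open MeasureTheory Set

namespace Pool.Agent.Helper39.P5

open Pool.Agent.Helper27.PHU Pool.Agent.Helper37.PH Pool.Agent.Helper61.PH Pool.Agent.Helper8.PH5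

/-- pentagons whose golden triangle `p0 p2 p3` is the largest -/
structure Gold (p0 p1 p2 p3 p4 : ℝ × ℝ) : Prop where
  g1 : tr p1 p3 p4 ≤ tr p0 p2 p3
  g2 : tr p2 p4 p0 ≤ tr p0 p2 p3
  g3 : tr p3 p0 p1 ≤ tr p0 p2 p3
  g4 : tr p4 p1 p2 ≤ tr p0 p2 p3

theorem exists_Gold {K : Set (ℝ × ℝ)} (hS : SBody K) :
    ∃ p0 p1 p2 p3 p4, Pent K p0 p1 p2 p3 p4 ∧ Gold p0 p1 p2 p3 p4 := by
  obtain ⟨p0, p1, p2, p3, p4, h⟩ := exists_Pent hS
  set f : Fin 5 → ℝ := ![tr p0 p2 p3, tr p1 p3 p4, tr p2 p4 p0, tr p3 p0 p1, tr p4 p1 p2] with hf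
  obtain ⟨i, hi⟩ := Finite.exists_max f
  have k0 := hi 0
  have k1 := hi 1
  have k2 := hi 2
  have k3 := hi 3
  have k4 := hi 4
  fin_cases i
  · exact ⟨p0, p1, p2, p3, p4, h, k1, k2, k3, k4⟩
  · exact ⟨p1, p2, p3, p4, p0, h.rot, k2, k3, k4, k0⟩
  · exact ⟨p2, p3, p4, p0, p1, h.rot.rot, k3, k4, k0, k1⟩
  · exact ⟨p3, p4, p0, p1, p2, h.rot.rot.rot, k4, k0, k1, k2⟩
  · exact ⟨p4, p0, p1, p2, p3, h.rot.rot.rot.rot, k0, k1, k2, k3⟩

/-- the normal form -/
structure NPent (K : Set (ℝ × ℝ)) (p1 p4 : ℝ × ℝ) : Prop where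
  pent : Pent K (0, 1) p1 (-1, 0) (1, 0) p4
  gold : Gold (0, 1) p1 (-1, 0) (1, 0) p4

theorem sh_scale {E : ℝ × ℝ → ℝ × ℝ} {k : ℝ}
    (hE : ∀ p q r, tr (E p) (E q) (E r) = k * tr p q r) (p0 p1 p2 p3 p4 : ℝ × ℝ) :
    sh (E p0) (E p1) (E p2) (E p3) (E p4) = k * sh p0 p1 p2 p3 p4 := by
  rw [sh_fan, sh_fan, hE, hE, hE]
  ring

theorem exists_NPent {K : Set (ℝ × ℝ)} (hS : SBody K) :
    ∃ (L : (ℝ × ℝ) ≃ₗ[ℝ] (ℝ × ℝ)) (c : ℝ × ℝ), ∃ p1 p4, NPent (affE L c '' K) p1 p4 := by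
  obtain ⟨p0, p1, p2, p3, p4, h, g⟩ := exists_Gold hS
  have hD0 : 0 < tr p2 p3 p0 := by
    rw [tr_rot p0 p2 p3]; exact h.cvx.t0
  obtain ⟨L, c, hE⟩ := exists_aff (a := p2) (b := p3) (c := p0) hD0.ne'
  set D : ℝ := cr (p3 - p2) (p0 - p2) with hD
  have hDD : D = tr p2 p3 p0 := rfl
  have hDpos : 0 < D := hD0
  have htr : ∀ p q r : ℝ × ℝ, tr (affE L c p) (affE L c q) (affE L c r) = 2 / D * tr p q r := by
    intro p q r
    have hDe : D = (p3.1 - p2.1) * (p0.2 - p2.2) - (p3.2 - p2.2) * (p0.1 - p2.1) := rfl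
    have hne := hDpos.ne'
    simp only [hE, tr_eq, cr, Prod.fst_sub, Prod.snd_sub]
    field_simp
    rw [hDe]
    ring
  have hk : 0 < 2 / D := by positivity
  have e2 : affE L c p2 = (-1, 0) := by
    rw [hE]
    simp [cr]
  have e3 : affE L c p3 = (1, 0) := by
    rw [hE]
    ext
    · show -1 + (2 * cr (p3 - p2) (p0 - p2) + cr (p3 - p2) (p3 - p2)) / D = 1
      rw [← hD]
      have : cr (p3 - p2) (p3 - p2) = 0 := by unfold cr; ring
      rw [this]
      field_simp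
      ring
    · show cr (p3 - p2) (p3 - p2) / D = 0
      have : cr (p3 - p2) (p3 - p2) = 0 := by unfold cr; ring
      rw [this, zero_div]
  have e0 : affE L c p0 = (0, 1) := by
    rw [hE]
    ext
    · show -1 + (2 * cr (p0 - p2) (p0 - p2) + cr (p3 - p2) (p0 - p2)) / D = 0
      rw [← hD]
      have : cr (p0 - p2) (p0 - p2) = 0 := by unfold cr; ring
      rw [this]
      field_simp
      norm_num
    · show cr (p3 - p2) (p0 - p2) / D = 1
      rw [← hD, div_self hDpos.ne']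
  refine ⟨L, c, affE L c p1, affE L c p4, ?_, ?_⟩
  · rw [← e2, ← e3, ← e0]
    have m : ∀ {p}, p ∈ K → affE L c p ∈ affE L c '' K := fun hp => mem_image_of_mem _ hp
    refine ⟨body_image h.body _, m h.m0, m h.m1, m h.m2, m h.m3, m h.m4, ?_, ?_⟩
    · rintro _ ⟨q0, h0, rfl⟩ _ ⟨q1, h1, rfl⟩ _ ⟨q2, h2, rfl⟩ _ ⟨q3, h3, rfl⟩ _ ⟨q4, h4, rfl⟩
      rw [sh_scale htr, sh_scale htr]
      exact mul_le_mul_of_nonneg_left (h.maxi q0 h0 q1 h1 q2 h2 q3 h3 q4 h4) hk.le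
    · have cc := h.cvx
      constructor
      · rw [htr]; exact mul_pos hk cc.a0
      · rw [htr]; exact mul_pos hk cc.a1
      · rw [htr]; exact mul_pos hk cc.a2
      · rw [htr]; exact mul_pos hk cc.a3
      · rw [htr]; exact mul_pos hk cc.a4
      · rw [htr]; exact mul_pos hk cc.t0
      · rw [htr]; exact mul_pos hk cc.t1
      · rw [htr]; exact mul_pos hk cc.t2
      · rw [htr]; exact mul_pos hk cc.t3
      · rw [htr]; exact mul_pos hk cc.t4
  · rw [← e2, ← e3, ← e0]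
    constructor
    · rw [htr, htr]; exact mul_le_mul_of_nonneg_left g.g1 hk.le
    · rw [htr, htr]; exact mul_le_mul_of_nonneg_left g.g2 hk.le
    · rw [htr, htr]; exact mul_le_mul_of_nonneg_left g.g3 hk.le
    · rw [htr, htr]; exact mul_le_mul_of_nonneg_left g.g4 hk.le

/-- Reduction of an upper bound for `H` to normalised bodies. -/
theorem H_le_of_NPent {C : ℝ} (hC : 0 ≤ C)
    (h : ∀ (K : Set (ℝ × ℝ)) (p1 p4 : ℝ × ℝ), NPent K p1 p4 → Cov K (C * (volume K).toReal)) :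
    H ≤ ENNReal.ofReal C := by
  apply H_le_of hC (Q := fun K => ∃ p1 p4, NPent K p1 p4)
  · intro K hS
    exact exists_NPent hS
  · rintro K ⟨p1, p4, hN⟩
    exact h K p1 p4 hN

/-- reflection of a point -/
def mp (p : ℝ × ℝ) : ℝ × ℝ := (-p.1, p.2)

theorem tr_mp (p q r : ℝ × ℝ) : tr (mp p) (mp q) (mp r) = -tr p q r := by
  simp only [tr_eq, mp]; ring

theorem tr_rev (p q r : ℝ × ℝ) : tr r q p = -tr p q r := by
  simp only [tr_eq]; ring

theorem sh_rev (p0 p1 p2 p3 p4 : ℝ × ℝ) :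
    sh (mp p0) (mp p4) (mp p3) (mp p2) (mp p1) = sh p0 p1 p2 p3 p4 := by
  simp only [sh, cr, mp]; ring

/-- the reflection of the frame -/
theorem NPent.mir {K : Set (ℝ × ℝ)} {p1 p4 : ℝ × ℝ} (h : NPent K p1 p4) :
    NPent (mir K) (mp p4) (mp p1) := by
  have c := h.pent.cvx
  have g := h.gold
  have m : ∀ {p}, p ∈ K → mp p ∈ Pool.Agent.Helper8.PH5.mir K := fun hp => mem_image_of_mem _ hp
  have e0 : mp (0, 1) = (0, 1) := by simp [mp]
  have e2 : mp (-1, 0) = (1, 0) := by simp [mp]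
  have e3 : mp (1, 0) = (-1, 0) := by simp [mp]
  have ht : ∀ p q r : ℝ × ℝ, tr (mp r) (mp q) (mp p) = tr p q r := by
    intro p q r
    rw [tr_mp, tr_rev]; ring
  have ht' : ∀ p q r : ℝ × ℝ, tr (mp p) (mp r) (mp q) = tr p q r := by
    intro p q r
    simp only [tr_eq, mp]; ring
  have ht'' : ∀ p q r : ℝ × ℝ, tr (mp q) (mp p) (mp r) = tr p q r := by
    intro p q r
    simp only [tr_eq, mp]; ring
  refine ⟨⟨body_mir h.pent.body, ?_, m h.pent.m4, ?_, ?_, m h.pent.m1, ?_, ?_⟩, ?_⟩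
  · rw [← e0]; exact m h.pent.m0
  · rw [← e3]; exact m h.pent.m3
  · rw [← e2]; exact m h.pent.m2
  · rintro _ ⟨q0, h0, rfl⟩ _ ⟨q1, h1, rfl⟩ _ ⟨q2, h2, rfl⟩ _ ⟨q3, h3, rfl⟩ _ ⟨q4, h4, rfl⟩
    have e := sh_rev (0, 1) p1 (-1, 0) (1, 0) p4
    rw [e0, e2, e3] at e
    rw [e]
    have e' := sh_rev q0 q4 q3 q2 q1
    have := h.pent.maxi q0 h0 q4 h4 q3 h3 q2 h2 q1 h1
    rw [← e'] at this
    exact this
  · constructor
    · have := c.a0; simp only [tr_eq, mp] at this ⊢; linarith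
    · have := c.a4; simp only [tr_eq, mp] at this ⊢; linarith
    · have := c.a3; simp only [tr_eq, mp] at this ⊢; linarith
    · have := c.a2; simp only [tr_eq, mp] at this ⊢; linarith
    · have := c.a1; simp only [tr_eq, mp] at this ⊢; linarith
    · have := c.t0; simp only [tr_eq, mp] at this ⊢; linarith
    · have := c.t4; simp only [tr_eq, mp] at this ⊢; linarith
    · have := c.t3; simp only [tr_eq, mp] at this ⊢; linarith
    · have := c.t2; simp only [tr_eq, mp] at this ⊢; linarith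
    · have := c.t1; simp only [tr_eq, mp] at this ⊢; linarith
  · constructor
    · have := g.g4; simp only [tr_eq, mp] at this ⊢; linarith
    · have := g.g3; simp only [tr_eq, mp] at this ⊢; linarith
    · have := g.g2; simp only [tr_eq, mp] at this ⊢; linarith
    · have := g.g1; simp only [tr_eq, mp] at this ⊢; linarith

end Pool.Agent.Helper39.P5
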